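import Pool.Agent.Q99.SR.Grp
import Pool.Agent.Q99.CT.Basic

/-!
# The degree of the character field of uniformly semi-rational groups is unbounded

The groups are `{(σ, τ) ∈ S_n × D_8 : sign σ = ε(τ)}`, where `ε` is the linear character of the
dihedral group `D_8` of order `8` with kernel the rotations.
-/

set_option autoImplicit false

open Equiv Equiv.Perm

namespace Pool.Agent.Results.MP_fc75c6_al.NoConstant

open Pool.Agent.Q99 Pool.Agent.Q99.SR

/-- `G` is uniformly semi-rational: for some integer `m`, for all `x`, every generator of `⟨x⟩` is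
conjugate to `x` or to `x ^ m`. -/
def UniformlySemirational (G : Type) [Group G] : Prop :=
  ∃ m : ℤ, ∀ x y : G, Subgroup.zpowers y = Subgroup.zpowers x → IsConj x y ∨ IsConj (x ^ m) y

/-- The field generated over `ℚ` by all the values of all the irreducible complex characters. -/
noncomputable def charField (G : Type) [Group G] : IntermediateField ℚ ℂ :=
  IntermediateField.adjoin ℚ {z : ℂ | ∃ χ : G → ℂ, (∃ (V : Type) (_ : AddCommGroup V)
    (_ : Module ℂ V) (_ : FiniteDimensional ℂ V) (ρ : Representation ℂ G V),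
      ρ.IsIrreducible ∧ χ = ρ.character) ∧ ∃ g : G, χ g = z}

theorem charField_eq (G : Type) [Group G] : charField G = CT.charField G := rfl

theorem fixes_r1 : ∀ d : DihedralGroup 4, d * DihedralGroup.r 1 * d⁻¹ = DihedralGroup.r 1 →
    eps d = 1 := by decide

/-- The splitting elements. -/
theorem splitting {n p : ℕ} [hp : Fact p.Prime] (h2 : p ≠ 2) (hn : Even n) (hpn : p < n)
    (hdvd : ¬ p ∣ n - p) : ∃ x : GG n,
      (∀ j : ℕ, j ≡ 1 [MOD p] → j ≡ 1 [MOD n - p] → j ≡ 1 [MOD 4] → x ^ j = x) ∧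
      (∀ u : (ZMod p)ˣ, (∀ v : (ZMod p)ˣ, v ∈ Subgroup.zpowers u) → ∀ j : ℕ, (j : ZMod p) = u →
        j ≡ 1 [MOD n - p] → j ≡ 1 [MOD 4] → ¬ IsConj x (x ^ j)) := by
  have hodd : Odd p := hp.out.odd_of_ne_two h2
  obtain ⟨q, rfl⟩ : ∃ q, n = p + q := ⟨n - p, by omega⟩
  rw [Nat.add_sub_cancel_left] at hdvd ⊢
  have hq : Odd q := by
    rw [Nat.even_add] at hn
    rw [← Nat.not_even_iff_odd]
    rw [← Nat.not_even_iff_odd] at hodd
    tauto
  haveI : NeZero q := ⟨by rintro rfl; simp at hq⟩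
  let e : ZMod p ⊕ ZMod q ≃ Fin (p + q) := Fintype.equivFinOfCardEq (by
    rw [Fintype.card_sum, ZMod.card, ZMod.card])
  let c : Perm (ZMod p ⊕ ZMod q) ≃* Perm (Fin (p + q)) := e.permCongrHom
  have hc : ∀ f, sign (c f) = sign f := fun f => sign_permCongr e f
  have hmem : ((c (el p q), DihedralGroup.r 1) : Perm (Fin (p + q)) × DihedralGroup 4) ∈
      GG (p + q) := by
    rw [MonoidHom.mem_ker, del_apply, hc, sign_el hodd hq]; rfl
  have h4 : ∀ j : ℕ, j ≡ 1 [MOD 4] → (DihedralGroup.r 1 : DihedralGroup 4) ^ j =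
      DihedralGroup.r 1 := by
    intro j hj
    conv_rhs => rw [← pow_one (DihedralGroup.r 1 : DihedralGroup 4)]
    rw [pow_eq_pow_iff_modEq]
    exact hj.of_dvd (orderOf_dvd_of_pow_eq_one (dih_pow4 _))
  refine ⟨⟨_, hmem⟩, ?_, ?_⟩
  · intro j hj1 hj2 hj3
    apply Subtype.ext
    refine Prod.ext ?_ ?_
    · change (c (el p q)) ^ j = c (el p q)
      rw [← map_pow, el_pow, rot_pow_of_modEq hj1, rot_pow_of_modEq hj2]; rfl
    · exact h4 j hj3
  · intro u hu j hj1 hj2 hj3 hconj
    obtain ⟨⟨⟨π, d⟩, hk⟩, hk2⟩ := isConj_iff.mp hconj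
    have hk3 := congrArg Subtype.val hk2
    have hk4 : π * c (el p q) * π⁻¹ = (c (el p q)) ^ j := congrArg Prod.fst hk3
    have hk5 : d * DihedralGroup.r 1 * d⁻¹ = (DihedralGroup.r 1) ^ j := congrArg Prod.snd hk3
    rw [h4 j hj3] at hk5
    have hd : eps d = 1 := fixes_r1 d hk5
    have hπ : sign (c.symm π) = -1 := by
      apply sign_of_conj h2 hq hdvd u hu hj1 hj2
      apply c.injective
      rw [map_mul, map_mul, map_pow, c.apply_symm_apply, ← hk4]
      group
    rw [← hc, c.apply_symm_apply] at hπ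
    rw [MonoidHom.mem_ker, del_apply, hπ, hd] at hk
    exact absurd hk (by decide)

/-- Finite sets of primes of any size in which larger primes are `1` modulo smaller ones. -/
theorem exists_primes (k : ℕ) : ∃ s : Finset ℕ, s.card = k ∧ (∀ p ∈ s, p.Prime ∧ p ≠ 2) ∧
    ∀ p ∈ s, ∀ q ∈ s, p < q → p ∣ q - 1 := by
  induction k with
  | zero => exact ⟨∅, rfl, by simp, by simp⟩
  | succ k ih =>
    obtain ⟨s, hs, h1, h2⟩ := ih
    have hne : (∏ q ∈ s, q) ≠ 0 := Finset.prod_ne_zero_iff.mpr fun q hq => (h1 q hq).1.ne_zero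
    obtain ⟨p, hp, hgt, hmod⟩ := Nat.exists_prime_gt_modEq_one (k := ∏ q ∈ s, q)
      (2 + ∑ q ∈ s, q) hne
    have hlt : ∀ q ∈ s, q < p := by
      intro q hq
      have := Finset.single_le_sum (f := fun x => x) (fun i _ => Nat.zero_le i) hq
      omega
    have hns : p ∉ s := fun h => lt_irrefl _ (hlt p h)
    refine ⟨insert p s, by rw [Finset.card_insert_of_notMem hns, hs], ?_, ?_⟩
    · intro q hq
      rcases Finset.mem_insert.mp hq with rfl | hq
      · exact ⟨hp, by omega⟩
      · exact h1 q hq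
    · intro a ha b hb hab
      rcases Finset.mem_insert.mp ha with ha1 | ha1
      · rcases Finset.mem_insert.mp hb with hb1 | hb1
        · exact absurd hab (by rw [ha1, hb1]; exact lt_irrefl _)
        · exact absurd hab (by rw [ha1]; exact not_lt.mpr (hlt b hb1).le)
      · rcases Finset.mem_insert.mp hb with hb1 | hb1
        · have h3 : (∏ q ∈ s, q) ∣ p - 1 := (Nat.modEq_iff_dvd' hp.one_lt.le).mp hmod.symm
          rw [hb1]
          exact (Finset.dvd_prod_of_mem (fun q => q) ha1).trans h3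
        · exact h2 a ha1 b hb1 hab

/-- For every `c` there is a finite uniformly semi-rational group `G` with `[ℚ(G) : ℚ] > c`. -/
theorem result (c : ℕ) : ∃ (G : Type) (_ : Group G) (_ : Finite G),
    UniformlySemirational G ∧ c < Module.finrank ℚ (charField G) := by
  obtain ⟨s, hs, hs1, hs2⟩ := exists_primes (c + 1)
  set P := ∏ q ∈ s, q with hP
  have hPodd : Odd P := by
    rw [hP]
    exact Finset.prod_induction _ Odd (fun a b ha hb => ha.mul hb) odd_one
      fun p hp => (hs1 p hp).1.odd_of_ne_two (hs1 p hp).2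
  have hPpos : 0 < P := hPodd.pos
  set n := 3 * P - 1 with hn
  have hneven : Even n := by
    obtain ⟨m, hm⟩ := hPodd
    exact ⟨3 * m + 1, by omega⟩
  have hdvd : ∀ p ∈ s, p ∣ n + 1 := by
    intro p hp
    have : n + 1 = 3 * P := by omega
    rw [this]
    exact (Finset.dvd_prod_of_mem _ hp).mul_left 3
  have hlt : ∀ p ∈ s, p < n := by
    intro p hp
    have h1 : p ≤ P := Nat.le_of_dvd hPpos (Finset.dvd_prod_of_mem _ hp)
    have h2 := (hs1 p hp).1.two_le
    omega
  have hnd : ∀ p ∈ s, ∀ l ∈ s, ¬ l ∣ n - p := by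
    intro p hp l hl hdiv
    have hpn := hlt p hp
    have h1 : l ∣ (n + 1) - (n - p) := Nat.dvd_sub (hdvd l hl) hdiv
    have h2 : (n + 1) - (n - p) = p + 1 := by omega
    rw [h2] at h1
    have hpo := (hs1 p hp).1.odd_of_ne_two (hs1 p hp).2
    have hlo := (hs1 l hl).1.odd_of_ne_two (hs1 l hl).2
    have hl2 := (hs1 l hl).1.two_le
    have hp2 := (hs1 p hp).1.two_le
    rcases lt_trichotomy p l with h | h | h
    · have h3 := Nat.le_of_dvd (by omega) h1
      have h4 : l = p + 1 := by omega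
      rw [h4] at hlo
      exact (Nat.not_even_iff_odd.mpr hlo) (hpo.add_odd odd_one)
    · subst h
      have h3 : p ∣ 1 := (Nat.dvd_add_right (dvd_refl p)).mp h1
      have := Nat.le_of_dvd one_pos h3
      omega
    · have h3 := hs2 l hl p hp h
      have h4 : l ∣ (p + 1) - (p - 1) := Nat.dvd_sub h1 h3
      have h5 : (p + 1) - (p - 1) = 2 := by omega
      rw [h5] at h4
      have h6 := Nat.le_of_dvd (by norm_num) h4
      exact (hs1 l hl).2 (by omega)
  -- the exponent
  set N := 4 * n.factorial with hN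
  have hNpos : 0 < N := Nat.mul_pos (by norm_num) (Nat.factorial_pos n)
  have hexp : ∀ g : GG n, g ^ N = 1 := by
    rintro ⟨⟨σ, τ⟩, hg⟩
    apply Subtype.ext
    refine Prod.ext ?_ ?_
    · change σ ^ N = 1
      have h1 : σ ^ n.factorial = 1 := by
        have := pow_card_eq_one' (x := σ)
        rwa [Nat.card_perm, Nat.card_fin] at this
      rw [hN, mul_comm, pow_mul, h1, one_pow]
    · change τ ^ N = 1
      rw [hN, pow_mul, dih_pow4, one_pow]
  -- the exponents `J`
  have hJ : ∀ l : {p // p ∈ s}, ∃ J : ℕ, J.Coprime N ∧ (∃ u : (ZMod l.1)ˣ,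
      (∀ v : (ZMod l.1)ˣ, v ∈ Subgroup.zpowers u) ∧ (J : ZMod l.1) = u) ∧
      ∀ m, m ∣ N → ¬ l.1 ∣ m → J ≡ 1 [MOD m] := by
    rintro ⟨l, hl⟩
    haveI : Fact l.Prime := ⟨(hs1 l hl).1⟩
    obtain ⟨u, hu⟩ := IsCyclic.exists_generator (α := (ZMod l)ˣ)
    have hco : (ordCompl[l] N).Coprime l :=
      (Nat.coprime_ordCompl (hs1 l hl).1 hNpos.ne').symm
    have hcr := (Nat.chineseRemainder hco 1 (u : ZMod l).val).2
    set J : ℕ := (Nat.chineseRemainder hco 1 (u : ZMod l).val : ℕ) with hJdef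
    have hJu : (J : ZMod l) = u := by
      rw [(ZMod.natCast_eq_natCast_iff _ _ _).mpr hcr.2, ZMod.natCast_val, ZMod.cast_id', id]
    refine ⟨J, ?_, ⟨u, hu, hJu⟩, ?_⟩
    · rw [← Nat.ordProj_mul_ordCompl_eq_self N l]
      apply Nat.Coprime.mul_right
      · apply Nat.Coprime.pow_right
        rw [Nat.coprime_comm, (hs1 l hl).1.coprime_iff_not_dvd, ← ZMod.natCast_eq_zero_iff, hJu]
        exact u.ne_zero
      · have := hcr.1.gcd_eq
        rw [Nat.gcd_one_left] at this
        exact this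
    · intro m hm hlm
      have h3 : m ∣ ordCompl[l] N := by
        rw [← Nat.ordProj_mul_ordCompl_eq_self N l] at hm
        have h5 : m.Coprime (ordProj[l] N) := by
          apply Nat.Coprime.pow_right
          exact ((Nat.Prime.coprime_iff_not_dvd (hs1 l hl).1).mpr hlm).symm
        exact h5.dvd_of_dvd_mul_left hm
      exact hcr.1.of_dvd h3
  choose J hJ1 hJ2 hJ3 using hJ
  refine ⟨GG n, inferInstance, inferInstance, semirational n, ?_⟩
  haveI : Fintype (GG n) := Fintype.ofFinite _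
  have hcard : Fintype.card {p // p ∈ s} = c + 1 := by rw [Fintype.card_coe, hs]
  have := CT.card_le_finrank (G := GG n) hNpos hexp J hJ1 (fun i k hik => by
    haveI : Fact i.1.Prime := ⟨(hs1 i.1 i.2).1⟩
    obtain ⟨x, hx1, hx2⟩ := splitting (n := n) (p := i.1) (hs1 i.1 i.2).2 hneven (hlt i.1 i.2)
      (hnd i.1 i.2 i.1 i.2)
    have hpN : i.1 ∣ N := (Nat.dvd_factorial (hs1 i.1 i.2).1.pos (hlt i.1 i.2).le).mul_left 4
    have hqN : n - i.1 ∣ N :=
      (Nat.dvd_factorial (by have := hlt i.1 i.2; omega) (by omega)).mul_left 4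
    have h4N : 4 ∣ N := Dvd.intro _ rfl
    have h4 : ∀ l : {p // p ∈ s}, ¬ l.1 ∣ 4 := by
      intro l h
      have h1 : l.1 ∣ 2 := (hs1 l.1 l.2).1.dvd_of_dvd_pow (n := 2) (by simpa using h)
      have h2 := Nat.le_of_dvd (by norm_num) h1
      have h3 := (hs1 l.1 l.2).1.two_le
      exact (hs1 l.1 l.2).2 (by omega)
    refine ⟨x, ?_⟩
    have e1 : x ^ J k = x := by
      apply hx1
      · apply hJ3 k _ hpN
        intro h
        have := (Nat.prime_dvd_prime_iff_eq (hs1 k.1 k.2).1 (hs1 i.1 i.2).1).mp h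
        exact hik (Subtype.ext this.symm)
      · exact hJ3 k _ hqN (hnd i.1 i.2 k.1 k.2)
      · exact hJ3 k _ h4N (h4 k)
    rw [e1]
    obtain ⟨u, hu, hu2⟩ := hJ2 i
    intro h
    exact hx2 u hu (J i) hu2 (hJ3 i _ hqN (hnd i.1 i.2 i.1 i.2)) (hJ3 i _ h4N (h4 i)) h.symm)
  rw [hcard] at this
  rw [charField_eq]
  omega

end Pool.Agent.Results.MP_fc75c6_al.NoConstant
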